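import Pool.Agent.Y881.CS.Stm

set_option autoImplicit false

/-!
# Project CS: the Croot-Sisask lemma
-/

namespace Pool.Agent.Y547.CS

open Finset Pool.Agent.Y881.CS
open scoped Pointwise

section
variable {G : Type} [AddCommGroup G] [DecidableEq G]

/-- indicator -/
noncomputable def ii (B : Finset G) (x : G) : ℝ := if x ∈ B then 1 else 0

theorem gg_mul (A B : Finset G) (hA : A.Nonempty) (z : G) :
    gg A B z * A.card = ∑ a ∈ A, ii B (a + z) := by
  unfold gg ii
  have h0 : (A.card : ℝ) ≠ 0 := by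
    have := hA.card_pos
    positivity
  rw [div_mul_cancel₀ _ h0, Finset.card_filter]
  push_cast
  rfl

theorem gg_nonneg (A B : Finset G) (z : G) : 0 ≤ gg A B z := by
  unfold gg
  positivity

theorem gg_le_one (A B : Finset G) (z : G) : gg A B z ≤ 1 := by
  unfold gg
  apply div_le_one_of_le₀ _ (by positivity)
  exact_mod_cast Finset.card_filter_le _ _

variable [Fintype G]

theorem ii_sum (B : Finset G) (a : G) : ∑ z : G, ii B (a + z) = B.card := by
  have h1 : ∑ z : G, ii B (a + z) = ∑ z : G, ii B z := Equiv.sum_comp (Equiv.addLeft a) (fun z => ii B z)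
  rw [h1]
  unfold ii
  rw [Finset.sum_ite_mem]
  simp

theorem gg_sum (A B : Finset G) (hA : A.Nonempty) : ∑ z : G, gg A B z = B.card := by
  have h0 : (A.card : ℝ) ≠ 0 := by
    have := hA.card_pos
    positivity
  have h1 : (∑ z : G, gg A B z) * A.card = B.card * A.card := by
    rw [Finset.sum_mul, Finset.sum_congr rfl fun z _ => gg_mul A B hA z, Finset.sum_comm,
      Finset.sum_congr rfl fun a _ => ii_sum B a, Finset.sum_const, nsmul_eq_mul, mul_comm]
  exact mul_right_cancel₀ h0 h1

/-- the moment of one tuple -/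
noncomputable def DD (A B : Finset G) {n : ℕ} (m : ℕ) (f : Fin n → {a // a ∈ A}) : ℝ :=
  ∑ z : G, (∑ i, (ii B ((f i : G) + z) - gg A B z)) ^ (2 * m)

theorem DD_nonneg (A B : Finset G) {n : ℕ} (m : ℕ) (f : Fin n → {a // a ∈ A}) : 0 ≤ DD A B m f := by
  unfold DD
  exact Finset.sum_nonneg fun z _ => (even_two_mul m).pow_nonneg _

theorem DD_sum (hMZ : S_MZ) (A B : Finset G) (hA : A.Nonempty) {n m : ℕ} (hm : 1 ≤ m)
    (hmn : m ≤ n) : ∑ f : Fin n → {a // a ∈ A}, DD A B m f ≤
      (3 * m * n : ℝ) ^ m * (A.card : ℝ) ^ n * B.card := by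
  have : Nonempty {a // a ∈ A} := hA.to_subtype
  unfold DD
  rw [Finset.sum_comm]
  have key : ∀ z : G, ∑ f : Fin n → {a // a ∈ A},
      (∑ i, (ii B ((f i : G) + z) - gg A B z)) ^ (2 * m) ≤
      (3 * m * n : ℝ) ^ m * (A.card : ℝ) ^ n * gg A B z := by
    intro z
    obtain ⟨g, hg⟩ : ∃ g : ℝ, g = gg A B z := ⟨_, rfl⟩
    have hg0 : 0 ≤ g := by rw [hg]; exact gg_nonneg A B z
    have hg1 : g ≤ 1 := by rw [hg]; exact gg_le_one A B z
    have hs : ∑ a : {a // a ∈ A}, ii B ((a : G) + z) = g * A.card := by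
      rw [hg, gg_mul A B hA z]
      exact Finset.sum_coe_sort A fun a => ii B (a + z)
    have hc : Fintype.card {a // a ∈ A} = A.card := Fintype.card_coe A
    have h1 := hMZ {a // a ∈ A} (fun a => ii B ((a : G) + z) - g) n m hm hmn
      (by
        rw [Finset.sum_sub_distrib, hs, Finset.sum_const, Finset.card_univ, hc, nsmul_eq_mul]
        ring)
      (by
        intro a
        unfold ii
        rw [abs_le]
        split_ifs
        · constructor <;> linarith
        · constructor <;> linarith)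
    have h2 : ∑ a : {a // a ∈ A}, (ii B ((a : G) + z) - g) ^ 2 ≤ A.card * g := by
      have e1 : ∀ a : {a // a ∈ A}, (ii B ((a : G) + z) - g) ^ 2 =
          (1 - 2 * g) * ii B ((a : G) + z) + g ^ 2 := by
        intro a
        unfold ii
        split_ifs <;> ring
      rw [Finset.sum_congr rfl fun a _ => e1 a, Finset.sum_add_distrib, ← Finset.mul_sum, hs,
        Finset.sum_const, Finset.card_univ, hc, nsmul_eq_mul]
      have h0 : (0:ℝ) ≤ A.card := by positivity
      have h3 : 0 ≤ (A.card : ℝ) * g ^ 2 := by positivity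
      nlinarith
    rw [hc] at h1
    rw [← hg]
    refine h1.trans ?_
    have hn : (A.card : ℝ) ^ n = (A.card : ℝ) ^ (n - 1) * A.card := by
      rw [← pow_succ]
      congr 1
      omega
    calc (3 * m * n : ℝ) ^ m * (A.card : ℝ) ^ (n - 1) * ∑ a : {a // a ∈ A},
          (ii B ((a : G) + z) - g) ^ 2
        ≤ (3 * m * n : ℝ) ^ m * (A.card : ℝ) ^ (n - 1) * (A.card * g) :=
          mul_le_mul_of_nonneg_left h2 (by positivity)
      _ = _ := by rw [hn]; ring
  calc ∑ z : G, ∑ f : Fin n → {a // a ∈ A}, (∑ i, (ii B ((f i : G) + z) - gg A B z)) ^ (2 * m)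
      ≤ ∑ z : G, (3 * m * n : ℝ) ^ m * (A.card : ℝ) ^ n * gg A B z :=
        Finset.sum_le_sum fun z _ => key z
    _ = _ := by rw [← Finset.mul_sum, gg_sum A B hA]

theorem two_pow_le {u v : ℝ} {m : ℕ} :
    |u - v| ^ (2 * m) ≤ 2 ^ (2 * m - 1) * (u ^ (2 * m) + v ^ (2 * m)) := by
  have h1 : |u - v| ≤ |u| + |v| := by
    have := abs_add_le u (-v)
    rwa [abs_neg, ← sub_eq_add_neg] at this
  calc |u - v| ^ (2 * m) ≤ (|u| + |v|) ^ (2 * m) := pow_le_pow_left₀ (abs_nonneg _) h1 _
    _ ≤ 2 ^ (2 * m - 1) * (|u| ^ (2 * m) + |v| ^ (2 * m)) :=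
        add_pow_le (abs_nonneg _) (abs_nonneg _) _
    _ = _ := by rw [(even_two_mul m).pow_abs, (even_two_mul m).pow_abs]

end

open Classical in
theorem t_CS : S_MZ → S_CS := by
  intro hMZ G _ _ _ A X B M ε n m hA hX hM hAX hm hmn hε hmε
  obtain ⟨E, hE⟩ : ∃ E : ℝ, E = 2 * ((3 * m * n : ℝ) ^ m * B.card) := ⟨_, rfl⟩
  have hn1 : 1 ≤ n := hm.trans hmn
  have hn0 : (0:ℝ) < n := by exact_mod_cast hn1
  have hm0 : (0:ℝ) < m := by exact_mod_cast hm
  have hA0 : (0:ℝ) < A.card := by exact_mod_cast hA.card_pos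
  have hM0 : 0 < M := by linarith
  obtain ⟨Gd, hGd⟩ : ∃ Gd : Finset (Fin n → {a // a ∈ A}),
      Gd = Finset.univ.filter fun f => DD A B m f ≤ E := ⟨_, rfl⟩
  -- many good tuples
  have hgood : (A.card : ℝ) ^ n ≤ 2 * Gd.card := by
    have h1 := DD_sum hMZ A B hA hm hmn
    have hcard : Gd.card + (Finset.univ.filter fun f : Fin n → {a // a ∈ A} =>
        ¬ DD A B m f ≤ E).card = A.card ^ n := by
      rw [hGd, Finset.card_filter_add_card_filter_not, Finset.card_univ, Fintype.card_pi_const,
        Fintype.card_coe]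
    have hcardR : (Gd.card : ℝ) + ((Finset.univ.filter fun f : Fin n → {a // a ∈ A} =>
        ¬ DD A B m f ≤ E).card : ℝ) = (A.card : ℝ) ^ n := by exact_mod_cast hcard
    rcases (Nat.zero_le B.card).eq_or_lt with hB | hB
    · have h2 : ∀ f : Fin n → {a // a ∈ A}, DD A B m f ≤ E := by
        intro f
        have h3 : DD A B m f ≤ ∑ f : Fin n → {a // a ∈ A}, DD A B m f :=
          Finset.single_le_sum (fun f _ => DD_nonneg A B m f) (Finset.mem_univ f)
        rw [hE, ← hB]
        rw [← hB] at h1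
        simp only [Nat.cast_zero, mul_zero] at h1 ⊢
        exact h3.trans h1
      have h3 : (Finset.univ.filter fun f : Fin n → {a // a ∈ A} => ¬ DD A B m f ≤ E).card = 0 := by
        rw [Finset.card_eq_zero, Finset.filter_eq_empty_iff]
        intro f _
        exact not_not.2 (h2 f)
      rw [h3] at hcardR
      have : (0:ℝ) ≤ Gd.card := by positivity
      push_cast at hcardR
      linarith
    · have hB' : (0:ℝ) < B.card := by exact_mod_cast hB
      have hE0 : 0 < E := by rw [hE]; positivity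
      have h2 : ((Finset.univ.filter fun f : Fin n → {a // a ∈ A} => ¬ DD A B m f ≤ E).card : ℝ) * E ≤
          (3 * m * n : ℝ) ^ m * (A.card : ℝ) ^ n * B.card := by
        refine le_trans ?_ h1
        calc ((Finset.univ.filter fun f : Fin n → {a // a ∈ A} => ¬ DD A B m f ≤ E).card : ℝ) * E
            = ∑ _f ∈ Finset.univ.filter (fun f : Fin n → {a // a ∈ A} => ¬ DD A B m f ≤ E), E := by
              rw [Finset.sum_const, nsmul_eq_mul]
          _ ≤ ∑ f ∈ Finset.univ.filter (fun f : Fin n → {a // a ∈ A} => ¬ DD A B m f ≤ E),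
                DD A B m f := Finset.sum_le_sum fun f hf =>
                  (not_le.1 (Finset.mem_filter.1 hf).2).le
          _ ≤ ∑ f : Fin n → {a // a ∈ A}, DD A B m f :=
              Finset.sum_le_sum_of_subset_of_nonneg (Finset.filter_subset _ _)
                fun f _ _ => DD_nonneg A B m f
      have h3 : (3 * m * n : ℝ) ^ m * (A.card : ℝ) ^ n * B.card = E * ((A.card : ℝ) ^ n / 2) := by
        rw [hE]
        ring
      rw [h3, mul_comm] at h2
      have h4 := le_of_mul_le_mul_left h2 hE0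
      linarith
  -- a good fibre
  obtain ⟨b, hb, hfib⟩ : ∃ b ∈ Fintype.piFinset (fun _ : Fin n => A + X),
      (X.card : ℝ) / (2 * M ^ n) ≤ (((X ×ˢ Gd).filter fun p =>
        (fun i => ((p.2 i : G) + p.1)) = b).card : ℝ) := by
    apply Finset.exists_le_of_sum_le
    · refine ⟨fun _ => hA.choose + hX.choose, Fintype.mem_piFinset.2 fun i => ?_⟩
      exact Finset.add_mem_add hA.choose_spec hX.choose_spec
    · rw [Finset.sum_const, Fintype.card_piFinset_const, nsmul_eq_mul]
      have h1 : ∑ b ∈ Fintype.piFinset (fun _ : Fin n => A + X),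
          (((X ×ˢ Gd).filter fun p => (fun i => ((p.2 i : G) + p.1)) = b).card : ℝ) =
          (X.card : ℝ) * Gd.card := by
        have h2 := Finset.card_eq_sum_card_fiberwise (s := X ×ˢ Gd)
          (t := Fintype.piFinset (fun _ : Fin n => A + X))
          (f := fun p => (fun i => ((p.2 i : G) + p.1))) (by
            rintro ⟨x, f⟩ hp
            rw [Finset.mem_coe, Finset.mem_product] at hp
            rw [Finset.mem_coe, Fintype.mem_piFinset]
            intro i
            exact Finset.add_mem_add (f i).2 hp.1)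
        rw [Finset.card_product] at h2
        have h3 : ((X.card * Gd.card : ℕ) : ℝ) = ((∑ b ∈ Fintype.piFinset (fun _ : Fin n => A + X),
          ((X ×ˢ Gd).filter fun p => (fun i => ((p.2 i : G) + p.1)) = b).card : ℕ) : ℝ) := by
          rw [h2]
        push_cast at h3
        exact h3.symm
      rw [h1]
      have h4 : ((A + X).card : ℝ) ^ n ≤ (M * A.card) ^ n := pow_le_pow_left₀ (by positivity) hAX n
      have hXc : (0:ℝ) ≤ X.card := by positivity
      push_cast
      calc ((A + X).card : ℝ) ^ n * ((X.card : ℝ) / (2 * M ^ n))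
          ≤ (M * A.card) ^ n * ((X.card : ℝ) / (2 * M ^ n)) :=
            mul_le_mul_of_nonneg_right h4 (by positivity)
        _ = (X.card : ℝ) * ((A.card : ℝ) ^ n / 2) := by
            rw [mul_pow]
            field_simp
        _ ≤ (X.card : ℝ) * Gd.card := mul_le_mul_of_nonneg_left (by linarith) hXc
  obtain ⟨T, hT⟩ : ∃ T : Finset G, T = X.filter fun x => ∃ f ∈ Gd, ∀ i, (f i : G) + x = b i :=
    ⟨_, rfl⟩
  have hcardT : (((X ×ˢ Gd).filter fun p =>
      (fun i => ((p.2 i : G) + p.1)) = b).card : ℝ) ≤ T.card := by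
    have : ((X ×ˢ Gd).filter fun p => (fun i => ((p.2 i : G) + p.1)) = b).card ≤ T.card := by
      apply Finset.card_le_card_of_injOn Prod.fst
      · rintro ⟨x, f⟩ hp
        rw [Finset.mem_coe, Finset.mem_filter, Finset.mem_product] at hp
        rw [hT, Finset.mem_coe, Finset.mem_filter]
        exact ⟨hp.1.1, f, hp.1.2, fun i => congrFun hp.2 i⟩
      · rintro ⟨x, f⟩ hp ⟨x', f'⟩ hp' heq
        rw [Finset.mem_coe, Finset.mem_filter] at hp hp'
        simp only at heq
        subst heq
        have : f = f' := by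
          funext i
          apply Subtype.ext
          have h1 := congrFun hp.2 i
          have h2 := congrFun hp'.2 i
          simp only at h1 h2
          exact add_right_cancel (h1.trans h2.symm)
        rw [this]
    exact_mod_cast this
  refine ⟨T, by rw [hT]; exact Finset.filter_subset _ _, ?_, ?_⟩
  · have h1 := hfib.trans hcardT
    rw [div_le_iff₀ (by positivity)] at h1
    linarith
  -- the moments
  have hmom : ∀ t ∈ T, ∑ z : G, (∑ i, ii B (b i + z) - n * gg A B (z + t)) ^ (2 * m) ≤ E := by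
    intro t ht
    rw [hT, Finset.mem_filter] at ht
    obtain ⟨_, f, hf, hfb⟩ := ht
    rw [hGd, Finset.mem_filter] at hf
    refine le_trans (le_of_eq ?_) hf.2
    unfold DD
    rw [← Equiv.sum_comp (Equiv.addRight t) (fun z : G => (∑ i, (ii B ((f i : G) + z) - gg A B z)) ^ (2 * m))]
    refine Finset.sum_congr rfl fun z _ => ?_
    congr 1
    simp only [Equiv.coe_addRight]
    rw [Finset.sum_sub_distrib, Finset.sum_const, Finset.card_univ, Fintype.card_fin, nsmul_eq_mul]
    congr 1
    refine Finset.sum_congr rfl fun i _ => ?_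
    rw [← hfb i]
    congr 1
    abel
  intro t ht t' ht'
  have h1 := hmom t ht
  have h2 := hmom t' ht'
  have h3 : (n : ℝ) ^ (2 * m) * ∑ z : G, |gg A B (z + t - t') - gg A B z| ^ (2 * m) ≤
      2 ^ (2 * m - 1) * (E + E) := by
    rw [← Equiv.sum_comp (Equiv.addRight t')
      (fun z : G => |gg A B (z + t - t') - gg A B z| ^ (2 * m)), Finset.mul_sum]
    calc ∑ z : G, (n : ℝ) ^ (2 * m) *
          |gg A B ((Equiv.addRight t') z + t - t') - gg A B ((Equiv.addRight t') z)| ^ (2 * m)
        ≤ ∑ z : G, 2 ^ (2 * m - 1) * ((∑ i, ii B (b i + z) - n * gg A B (z + t')) ^ (2 * m) +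
            (∑ i, ii B (b i + z) - n * gg A B (z + t)) ^ (2 * m)) := by
          refine Finset.sum_le_sum fun z _ => ?_
          refine le_trans (le_of_eq ?_) two_pow_le
          have e1 : z + t' + t - t' = z + t := by abel
          simp only [Equiv.coe_addRight]
          rw [e1, ← abs_of_nonneg hn0.le, ← mul_pow, ← abs_mul]
          rw [abs_of_nonneg hn0.le]
          congr 2
          ring
      _ ≤ 2 ^ (2 * m - 1) * (E + E) := by
          rw [← Finset.mul_sum, Finset.sum_add_distrib]
          exact mul_le_mul_of_nonneg_left (add_le_add h2 h1) (by positivity)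
  have h4 : (2:ℝ) ^ (2 * m - 1) * (E + E) ≤ (n : ℝ) ^ (2 * m) * (ε ^ (2 * m) * B.card) := by
    have e1 : (2:ℝ) ^ (2 * m - 1) * (E + E) = 2 * ((12 * m * n) ^ m * B.card) := by
      have e2 : (2:ℝ) ^ (2 * m - 1) * 2 = 2 ^ (2 * m) := by
        rw [← pow_succ]
        congr 1
        omega
      have e3 : (12 * m * n : ℝ) ^ m = 2 ^ (2 * m) * (3 * m * n) ^ m := by
        rw [pow_mul, ← mul_pow]
        congr 1
        ring
      rw [hE, e3, ← e2]
      ring
    have e4 : (2:ℝ) * (12 * m * n) ^ m ≤ (24 * m * n) ^ m := by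
      have e5 : (24 * m * n : ℝ) ^ m = 2 ^ m * (12 * m * n) ^ m := by
        rw [← mul_pow]
        congr 1
        ring
      rw [e5]
      apply mul_le_mul_of_nonneg_right _ (by positivity)
      calc (2:ℝ) = 2 ^ 1 := (pow_one 2).symm
        _ ≤ 2 ^ m := pow_le_pow_right₀ (by norm_num) hm
    have e6 : (24 * m * n : ℝ) ^ m ≤ (n : ℝ) ^ (2 * m) * ε ^ (2 * m) := by
      rw [← mul_pow, pow_mul]
      apply pow_le_pow_left₀ (by positivity)
      nlinarith
    have hB0 : (0:ℝ) ≤ B.card := by positivity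
    rw [e1]
    calc 2 * ((12 * m * n : ℝ) ^ m * B.card) = (2 * (12 * m * n : ℝ) ^ m) * B.card := by ring
      _ ≤ ((n : ℝ) ^ (2 * m) * ε ^ (2 * m)) * B.card :=
          mul_le_mul_of_nonneg_right (e4.trans e6) hB0
      _ = _ := by ring
  exact le_of_mul_le_mul_left (h3.trans h4) (by positivity)

end Pool.Agent.Y547.CS
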